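import Pool.Agent.D0H28.NoDil.Op

/-!
# Three commuting unital completely positive maps without any dilation

There are three commuting unital normal completely positive maps on `B(ℂ^6)` such that the
associated CP-semigroup over `ℕ^3` has no dilation at all.

The maps are the unitalisations of the maps with Kraus operators
`T₁ : E₀₀ + E₂₂, E₁₀ + E₃₃`, `T₂ : E₀₀ - E₁₁ + E₄₄`, `T₃ : E₂₃ + E₃₂ + E₄₄` on `ℂ^5`.
For a dilation `(p, K, B, θ)`, with `P ≤ p` the projection onto `ℂ^5`, the intertwiners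
`{x : θ_s(a) x = x a, a ∈ P B P}` have a product `x ⬝ y = θ_t(x) y`, and a comparison of Kraus
decompositions of `T_i T_j` shows that the intertwiners `x₀, x₁, y, z` which belong to the Kraus
operators satisfy `x₀ ⬝ y = y ⬝ x₀`, `x₁ ⬝ y = - y ⬝ x₁`, `x₀ ⬝ z = z ⬝ x₁`, `x₁ ⬝ z = z ⬝ x₀`,
`y ⬝ z = z ⬝ y`. Hence `x₀ ⬝ y ⬝ z = - x₀ ⬝ y ⬝ z`, but this product is an isometry on `P K`.
-/

set_option autoImplicit false

open Filter Topology
open scoped ComplexOrder

namespace Pool.Agent.Results.MP_0a86e9_an.NoDilation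

universe u v

section Definitions

/-- The bounded operators on the Hilbert space `H`. -/
abbrev Op (H : Type u) [NormedAddCommGroup H] [InnerProductSpace ℂ H] : Type u := H →L[ℂ] H

/-- `θ` maps the subset `B` (in our use a von Neumann algebra) of the star algebra `R` to itself and
is a star endomorphism, not necessarily unital, on `B` (the values of `θ` outside `B` do not
matter). -/
structure IsStarEnd {R : Type u} [Ring R] [StarRing R] [Algebra ℂ R] (B : Set R) (θ : R → R) :
    Prop where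
  mem : ∀ b ∈ B, θ b ∈ B
  add : ∀ a ∈ B, ∀ b ∈ B, θ (a + b) = θ a + θ b
  smul : ∀ (c : ℂ), ∀ b ∈ B, θ (c • b) = c • θ b
  mul : ∀ a ∈ B, ∀ b ∈ B, θ (a * b) = θ a * θ b
  map_star : ∀ b ∈ B, θ (star b) = star (θ b)

variable {H : Type u} [NormedAddCommGroup H] [InnerProductSpace ℂ H] [CompleteSpace H]

/-- The net `a` of operators is increasing and converges weakly to `b` (as `⟨x, a_i x⟩ → ⟨x, b x⟩`
for all vectors `x`); equivalently `b` is its supremum. -/
def IncreasesTo {I : Type} [Preorder I] (a : I → Op H) (b : Op H) : Prop :=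
  (∀ i j, i ≤ j → (a j - a i).IsPositive) ∧
  ∀ x, Tendsto (fun i => (inner ℂ x (a i x) : ℂ)) atTop (𝓝 (inner ℂ x (b x)))

/-- The map `T` is normal on `B`: it respects suprema of increasing nets in `B`. -/
def IsNormalOn (B : Set (Op H)) (T : Op H → Op H) : Prop :=
  ∀ (I : Type) [Preorder I] [IsDirectedOrder I] [Nonempty I] (a : I → Op H) (b : Op H),
    (∀ i, a i ∈ B) → b ∈ B → IncreasesTo a b → IncreasesTo (fun i => T (a i)) (T b)

/-- The map `T : B(H) → B(H)` is completely positive: for all operators `a₁, …, a_m` the operator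
matrix `(T (a_i^* a_j))` is positive: `∑ ⟨x_i, T (a_i^* a_j) x_j⟩ ≥ 0` for all vectors `x_i`. -/
def IsCompletelyPositive (T : Op H → Op H) : Prop :=
  ∀ (m : ℕ) (a : Fin m → Op H) (x : Fin m → H),
    0 ≤ ∑ i, ∑ j, inner ℂ (x i) (T (star (a i) * a j) (x j))

/-- The map `T : B(H) → B(H)` is linear and contractive. -/
def IsLinearContraction (T : Op H → Op H) : Prop :=
  (∀ a b, T (a + b) = T a + T b) ∧ (∀ (c : ℂ) a, T (c • a) = c • T a) ∧ ∀ a, ‖T a‖ ≤ ‖a‖

/-- `T` is a unital normal (contractive, linear) completely positive map on the von Neumann algebra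
`B(H)`. -/
def IsUnitalCP (T : Op H → Op H) : Prop :=
  IsLinearContraction T ∧ T 1 = 1 ∧ IsCompletelyPositive T ∧ IsNormalOn Set.univ T

/-- `θ` is an E-semigroup over `ℕ^3` on the von Neumann algebra `B`: normal star endomorphisms of
`B`, not necessarily unital, with `θ_0 = id` and `θ_{s+t} = θ_s ∘ θ_t`. -/
def IsESemigroup (B : VonNeumannAlgebra H) (θ : (Fin 3 → ℕ) → Op H → Op H) : Prop :=
  (∀ s, IsStarEnd (B : Set (Op H)) (θ s)) ∧ (∀ s, IsNormalOn (B : Set (Op H)) (θ s)) ∧
  (∀ b ∈ B, θ 0 b = b) ∧ ∀ s t, ∀ b ∈ B, θ (s + t) b = θ s (θ t b)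

section

variable {K : Type v} [NormedAddCommGroup K] [InnerProductSpace ℂ K] [CompleteSpace K]

/-- For an isometry `V : H → K`, by which `H` is regarded as a subspace of `K`: the operator `b` on
`K` is `V a V^*`, that is, `b` is `a` on `H` and `0` on the orthogonal complement of `H`. -/
def IsCorner (V : H →ₗᵢ[ℂ] K) (a : Op H) (b : Op K) : Prop :=
  (∀ y, b (V y) = V (a y)) ∧ ∀ z, (∀ y, inner ℂ (V y) z = 0) → b z = 0

/-- Let `T` be a family of maps on `A = B(H)`, indexed by `ℕ^3`, let `B` be a von Neumann algebra on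
`K` and `V : H → K` an isometry, so that `H` is a subspace of `K` and `p = V V^*` is the projection
of `K` onto `H`. `IsDilation T B V θ` means that `(p, K, B, θ)` is a dilation of `T`:
`B` contains `V a V^*` for all `a ∈ B(H)` (so `p = V 1 V^* ∈ B` and `A = B(H)` is the corner
`p B p`), `θ` is an E-semigroup on `B`, and `T_s(a) = p θ_s(a) p`, that is
`⟨V x, θ_s(V a V^*) V y⟩ = ⟨x, T_s(a) y⟩` for all vectors `x, y ∈ H`. -/
def IsDilation (T : (Fin 3 → ℕ) → Op H → Op H) (B : VonNeumannAlgebra K) (V : H →ₗᵢ[ℂ] K)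
    (θ : (Fin 3 → ℕ) → Op K → Op K) : Prop :=
  (∀ a, ∃ b ∈ B, IsCorner V a b) ∧ IsESemigroup B θ ∧
  ∀ s a, ∀ b ∈ B, IsCorner V a b → ∀ x y, inner ℂ (V x) (θ s b (V y)) = inner ℂ x (T s a y)

end

/-- The family `T` of maps on `A = B(H)` has a dilation `(p, K, B, θ)`. -/
def HasDilation (T : (Fin 3 → ℕ) → Op H → Op H) : Prop :=
  ∃ (K : Type v) (_ : NormedAddCommGroup K) (_ : InnerProductSpace ℂ K) (_ : CompleteSpace K)
    (B : VonNeumannAlgebra K) (V : H →ₗᵢ[ℂ] K) (θ : (Fin 3 → ℕ) → Op K → Op K), IsDilation T B V θ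

/-- The CP-semigroup `T_s = T₁^{s₀} T₂^{s₁} T₃^{s₂}` over `ℕ^3` of three commuting maps. -/
def semigroup (T₁ T₂ T₃ : Op H → Op H) (s : Fin 3 → ℕ) (a : Op H) : Op H :=
  T₁^[s 0] (T₂^[s 1] (T₃^[s 2] a))

end Definitions

open Pool.Agent.D0H28.NoDil

section Aux

variable {H : Type u} [NormedAddCommGroup H] [InnerProductSpace ℂ H] [CompleteSpace H]

lemma isUnitalCP_krOp {κ : Type*} [Fintype κ] (K : κ → H →L[ℂ] H) (hK : krOp K 1 = 1) :
    IsUnitalCP (krOp K : Op H → Op H) := by
  refine ⟨⟨fun a b => map_add _ a b, fun c a => map_smul _ c a, krOp_norm_le K hK⟩, hK,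
    krOp_cp K, ?_⟩
  intro I _ _ _ a b _ _ h
  refine ⟨fun i j hij => ?_, fun x => krOp_normal K atTop a b h.2 x⟩
  have h1 := h.1 i j hij
  have h2 : krOp K (a j) - krOp K (a i) = krOp K (a j - a i) := (map_sub _ _ _).symm
  change (krOp K (a j) - krOp K (a i)).IsPositive
  rw [h2, krOp_apply]
  have h3 : ∀ k, (K k * (a j - a i) * star (K k)).IsPositive := by
    intro k
    exact h1.conj_adjoint (K k)
  exact Finset.sum_induction _ (fun T : H →L[ℂ] H => T.IsPositive) (fun _ _ h h' => h.add h')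
    ContinuousLinearMap.isPositive_zero fun k _ => h3 k

variable {K : Type v} [NormedAddCommGroup K] [InnerProductSpace ℂ K] [CompleteSpace K]

lemma adj_V (V : H →ₗᵢ[ℂ] K) (x : H) :
    ContinuousLinearMap.adjoint V.toContinuousLinearMap (V x) = x :=
  congrArg (fun f => f x) V.adjoint_comp_self

lemma conj_apply (V : H →ₗᵢ[ℂ] K) (a : H →L[ℂ] H) (z : K) :
    conj V a z = V (a (ContinuousLinearMap.adjoint V.toContinuousLinearMap z)) := rfl

lemma isCorner_conj (V : H →ₗᵢ[ℂ] K) (a : Op H) : IsCorner V a (conj V a) := by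
  refine ⟨fun y => ?_, fun z hz => ?_⟩
  · rw [conj_apply, adj_V]
  · have : ContinuousLinearMap.adjoint V.toContinuousLinearMap z = 0 := by
      refine ext_inner_left ℂ fun y => ?_
      rw [ContinuousLinearMap.adjoint_inner_right, inner_zero_right]
      exact hz y
    rw [conj_apply, this, map_zero, map_zero]

lemma eq_conj (V : H →ₗᵢ[ℂ] K) {a : Op H} {b : Op K} (h : IsCorner V a b) : b = conj V a := by
  have hc := isCorner_conj V a
  ext z
  have h1 : ∀ y, inner ℂ (V y)
      (z - V (ContinuousLinearMap.adjoint V.toContinuousLinearMap z)) = 0 := by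
    intro y
    rw [inner_sub_right, V.inner_map_map]
    have := ContinuousLinearMap.adjoint_inner_right V.toContinuousLinearMap y z
    rw [this]
    exact sub_self _
  have h2 := h.2 _ h1
  have h3 := hc.2 _ h1
  rw [map_sub, sub_eq_zero] at h2 h3
  rw [h2, h3, h.1, hc.1]

end Aux

/-- The Hilbert space `ℂ^6`. -/
abbrev H6 : Type := EuclideanSpace ℂ (Fin 6)

/-- Matrices as operators. -/
noncomputable abbrev e6 : Matrix (Fin 6) (Fin 6) ℂ ≃⋆ₐ[ℂ] (H6 →L[ℂ] H6) :=
  Matrix.toEuclideanCLM (n := Fin 6) (𝕜 := ℂ)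

lemma krOp_e6 {κ : Type*} [Fintype κ] (L : κ → Matrix (Fin 6) (Fin 6) ℂ)
    (M : Matrix (Fin 6) (Fin 6) ℂ) : krOp (fun k => e6 (L k)) (e6 M) = e6 (kr L M) := by
  rw [krOp_apply, kr_apply, map_sum]
  refine Finset.sum_congr rfl fun k _ => ?_
  rw [map_mul, map_mul, ← Matrix.star_eq_conjTranspose, map_star]

/-- The map on `B(ℂ^6)` with the Kraus family `L`. -/
noncomputable def TT {κ : Type} [Fintype κ] (L : κ → Matrix (Fin 6) (Fin 6) ℂ) :
    Op H6 → Op H6 := krOp fun k => e6 (L k)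

lemma TT_e6 {κ : Type} [Fintype κ] (L : κ → Matrix (Fin 6) (Fin 6) ℂ)
    (M : Matrix (Fin 6) (Fin 6) ℂ) : TT L (e6 M) = e6 (kr L M) := krOp_e6 L M

lemma TT_cp {κ : Type} [Fintype κ] (L : κ → Matrix (Fin 6) (Fin 6) ℂ) (h : kr L 1 = 1) :
    IsUnitalCP (TT L) := by
  apply isUnitalCP_krOp
  have := krOp_e6 L 1
  rw [h, map_one] at this
  exact this

lemma TT_comm {κ κ' : Type} [Fintype κ] [Fintype κ'] (L : κ → Matrix (Fin 6) (Fin 6) ℂ)
    (L' : κ' → Matrix (Fin 6) (Fin 6) ℂ) (h : ∀ M, kr L (kr L' M) = kr L' (kr L M))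
    (a : Op H6) : TT L (TT L' a) = TT L' (TT L a) := by
  obtain ⟨M, hM⟩ := e6.surjective a
  have hM' : e6 M = a := hM
  rw [← hM', TT_e6, TT_e6, TT_e6, TT_e6, h]

/-- **There are three commuting unital normal completely positive maps on the von Neumann algebra
`B(H)`, `dim H = 6`, such that the CP-semigroup `T_s = T₁^{s₀} T₂^{s₁} T₃^{s₂}` over `ℕ^3` has no
dilation.** -/
theorem result :
    ∃ (H : Type) (_ : NormedAddCommGroup H) (_ : InnerProductSpace ℂ H) (_ : CompleteSpace H)
      (T₁ T₂ T₃ : Op H → Op H),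
      Module.finrank ℂ H = 6 ∧ IsUnitalCP T₁ ∧ IsUnitalCP T₂ ∧ IsUnitalCP T₃ ∧
      (∀ a, T₁ (T₂ a) = T₂ (T₁ a)) ∧ (∀ a, T₁ (T₃ a) = T₃ (T₁ a)) ∧
      (∀ a, T₂ (T₃ a) = T₃ (T₂ a)) ∧ ¬ HasDilation.{0, v} (semigroup T₁ T₂ T₃) := by
  refine ⟨H6, inferInstance, inferInstance, inferInstance, TT L1, TT L2, TT L3, ?_,
    TT_cp _ un1, TT_cp _ un2, TT_cp _ un3,
    TT_comm _ _ comm12, TT_comm _ _ comm13, TT_comm _ _ comm23, ?_⟩
  · simp
  rintro ⟨K, _, _, _, B, V, θ, hcor, ⟨hend, -, -, hadd⟩, hdil⟩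
  -- the embedding of the matrices
  have hmem : ∀ M : Matrix (Fin 6) (Fin 6) ℂ, conj V (e6 M) ∈ B.toStarSubalgebra := fun M => by
    obtain ⟨b, hb, hc⟩ := hcor (e6 M)
    rw [← eq_conj V hc]
    exact hb
  let ι : Matrix (Fin 6) (Fin 6) ℂ →⋆ₙₐ[ℂ] B.toStarSubalgebra :=
    { toFun := fun M => ⟨conj V (e6 M), hmem M⟩
      map_smul' := fun c M => Subtype.ext (by
        change conj V (e6 (c • M)) = c • conj V (e6 M)
        rw [map_smul, map_smul])
      map_zero' := Subtype.ext (by
        change conj V (e6 0) = 0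
        rw [map_zero, map_zero])
      map_add' := fun M N => Subtype.ext (by
        change conj V (e6 (M + N)) = conj V (e6 M) + conj V (e6 N)
        rw [map_add, map_add])
      map_mul' := fun M N => Subtype.ext (by
        change conj V (e6 (M * N)) = conj V (e6 M) * conj V (e6 N)
        rw [map_mul, map_mul])
      map_star' := fun M => Subtype.ext (by
        change conj V (e6 (star M)) = star (conj V (e6 M))
        rw [map_star, map_star]) }
  let Θ : (Fin 3 → ℕ) → (B.toStarSubalgebra →⋆ₙₐ[ℂ] B.toStarSubalgebra) := fun s =>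
    { toFun := fun b => ⟨θ s b.1, (hend s).mem b.1 b.2⟩
      map_smul' := fun c b => Subtype.ext ((hend s).smul c b.1 b.2)
      map_zero' := Subtype.ext (by
        change θ s 0 = 0
        have := (hend s).smul 0 0 (zero_mem B)
        simpa using this)
      map_add' := fun a b => Subtype.ext ((hend s).add a.1 a.2 b.1 b.2)
      map_mul' := fun a b => Subtype.ext ((hend s).mul a.1 a.2 b.1 b.2)
      map_star' := fun b => Subtype.ext ((hend s).map_star b.1 b.2) }
  have hR : ∀ b : B.toStarSubalgebra, star b * b = 0 → b = 0 := by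
    intro b hb
    apply Subtype.ext
    have h1 : star b.1 * b.1 = 0 := congrArg Subtype.val hb
    exact (CStarRing.star_mul_self_eq_zero_iff b.1).1 h1
  -- the dilation property for one map
  have hT : ∀ (s : Fin 3 → ℕ) (L : Fin 4 → Matrix (Fin 6) (Fin 6) ℂ),
      (∀ a, semigroup (TT L1) (TT L2) (TT L3) s a = TT L a) →
      ∀ M, ι 1 * Θ s (ι M) * ι 1 = ι (kr L M) := by
    intro s L hs M
    apply Subtype.ext
    change conj V (e6 1) * θ s (conj V (e6 M)) * conj V (e6 1) = conj V (e6 (kr L M))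
    ext z
    refine ext_inner_left ℂ fun w => ?_
    have h1 := hdil s (e6 M) (conj V (e6 M)) (hmem M) (isCorner_conj V _)
      (ContinuousLinearMap.adjoint V.toContinuousLinearMap w)
      (ContinuousLinearMap.adjoint V.toContinuousLinearMap z)
    rw [hs, TT_e6] at h1
    have h2 : ∀ z, conj V (e6 1) z =
        V (ContinuousLinearMap.adjoint V.toContinuousLinearMap z) := by
      intro z
      rw [conj_apply, map_one]
      rfl
    have h3 : ∀ (x : H6) (w : K), inner ℂ w (V x) =
        inner ℂ (ContinuousLinearMap.adjoint V.toContinuousLinearMap w) x := by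
      intro x w
      exact (ContinuousLinearMap.adjoint_inner_left V.toContinuousLinearMap x w).symm
    have h4 : ∀ (x : H6) (w : K), inner ℂ (V x) w =
        inner ℂ x (ContinuousLinearMap.adjoint V.toContinuousLinearMap w) := by
      intro x w
      exact (ContinuousLinearMap.adjoint_inner_right V.toContinuousLinearMap x w).symm
    rw [conj_apply, h3, ← h1, h4, ← h3]
    change inner ℂ w (conj V (e6 1) (θ s (conj V (e6 M)) (conj V (e6 1) z))) = _
    rw [h2, h2]
  have hc : ∀ (s t : Fin 3 → ℕ) (b : B.toStarSubalgebra), Θ s (Θ t b) = Θ t (Θ s b) := by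
    intro s t b
    apply Subtype.ext
    change θ s (θ t b.1) = θ t (θ s b.1)
    rw [← hadd s t b.1 b.2, ← hadd t s b.1 b.2, add_comm]
  have hzero := no_unital ι (Θ ![1, 0, 0]) (Θ ![0, 1, 0]) (Θ ![0, 0, 1]) hR (hc _ _) (hc _ _)
    (hc _ _) (hT _ L1 fun a => rfl) (hT _ L2 fun a => rfl) (hT _ L3 fun a => rfl)
  -- contradiction
  have h1 : conj V (e6 (W * W.conjTranspose)) = 0 := congrArg Subtype.val hzero
  have h2 : e6 (W * W.conjTranspose) = 0 := by
    ext1 x
    have h3 := congrArg (fun f => f (V x)) h1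
    simp only [conj_apply, adj_V] at h3
    have h4 : V (e6 (W * W.conjTranspose) x) = V 0 := by
      rw [h3, map_zero]
      rfl
    exact V.injective h4
  have h3 : W * W.conjTranspose = 0 := by
    have := e6.injective (h2.trans (map_zero e6).symm)
    exact this
  have h4 := W_range
  rw [h3, zero_add] at h4
  have h5 := congrArg (fun M => M 0 0) h4
  simp at h5

end Pool.Agent.Results.MP_0a86e9_an.NoDilation
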